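import Mathlib
import Pool.Agent.Lib.MP_121ecb_an.Defs
import Pool.Agent.Lib.MP_121ecb_an.Proof

set_option autoImplicit false

open Filter Topology Pool.Agent.Lib.MP_121ecb_an

namespace Pool.Agent.Results.MP_121ecb_an.HardyThick

/-- Q1 is false; more precisely, its undecided instance `f₁(t) = t^{3/2}`,
`f₂(t) = α t^{3/2} + t` is false for every irrational `α`. -/
theorem result : ¬ ThickIntersections ∧
    ∀ α : ℝ, Irrational α →
      (∃ K : Subring (Germ (atTop : Filter ℝ) ℝ), IsHardyField K ∧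
        ((fun t : ℝ => t ^ (3 / 2 : ℝ)) : Germ (atTop : Filter ℝ) ℝ) ∈ K ∧
        ((fun t : ℝ => α * t ^ (3 / 2 : ℝ) + t) : Germ (atTop : Filter ℝ) ℝ) ∈ K) ∧
      SpanCondition ![fun t : ℝ => t ^ (3 / 2 : ℝ), fun t : ℝ => α * t ^ (3 / 2 : ℝ) + t] ∧
      ∃ E : Set ℕ, E ⊆ {n | 1 ≤ n} ∧ 0 < upperDensity E ∧
        ¬ Thick (returnSet (fun t : ℝ => t ^ (3 / 2 : ℝ)) E ∩
          returnSet (fun t : ℝ => α * t ^ (3 / 2 : ℝ) + t) E) := by
  have main : ∀ α : ℝ, Irrational α →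
      (∃ K : Subring (Germ (atTop : Filter ℝ) ℝ), IsHardyField K ∧
        ((fun t : ℝ => t ^ (3 / 2 : ℝ)) : Germ (atTop : Filter ℝ) ℝ) ∈ K ∧
        ((fun t : ℝ => α * t ^ (3 / 2 : ℝ) + t) : Germ (atTop : Filter ℝ) ℝ) ∈ K) ∧
      SpanCondition ![fun t : ℝ => t ^ (3 / 2 : ℝ), fun t : ℝ => α * t ^ (3 / 2 : ℝ) + t] ∧
      ∃ E : Set ℕ, E ⊆ {n | 1 ≤ n} ∧ 0 < upperDensity E ∧
        ¬ Thick (returnSet (fun t : ℝ => t ^ (3 / 2 : ℝ)) E ∩
          returnSet (fun t : ℝ => α * t ^ (3 / 2 : ℝ) + t) E) := by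
    intro α hα
    exact ⟨⟨sqrtField, isHardyField_sqrtField, f₁_mem, f₂_mem α⟩, spanCondition hα,
      counterexample hα⟩
  refine ⟨fun hQ => ?_, main⟩
  obtain ⟨⟨K, hK, h1, h2⟩, hspan, E, hE, hdens, hnot⟩ := main (√2) irrational_sqrt_two
  apply hnot
  have := hQ K hK 2 ![fun t : ℝ => t ^ (3 / 2 : ℝ), fun t : ℝ => √2 * t ^ (3 / 2 : ℝ) + t]
    (by intro i; fin_cases i; exacts [h1, h2]) hspan E hE hdens
  have heq : (⋂ i, returnSet ((![fun t : ℝ => t ^ (3 / 2 : ℝ),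
      fun t : ℝ => √2 * t ^ (3 / 2 : ℝ) + t] : Fin 2 → ℝ → ℝ) i) E)
      = returnSet (fun t : ℝ => t ^ (3 / 2 : ℝ)) E ∩
          returnSet (fun t : ℝ => √2 * t ^ (3 / 2 : ℝ) + t) E := by
    ext n
    simp [Fin.forall_fin_two]
  rw [heq] at this
  exact this

end Pool.Agent.Results.MP_121ecb_an.HardyThick
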